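import Pool.Agent.Helper94.PQ.Stmts
import Pool.Agent.Helper18.CP.Lin

/-!
# Row DET: determinants of orthogonal representations and permutation characters
-/

set_option autoImplicit false

open scoped Classical

namespace PQ22

open PQ

section avg

variable {k V : Type} [Field k] [CharZero k] [AddCommGroup V] [Module k V]
  [FiniteDimensional k V]

/-- the dimension of the fixed vectors as an average of traces -/
theorem avg_trace (T : V →ₗ[k] V) (m : ℕ) (hm : 0 < m) (hT : T ^ m = 1) :
    (m : k) * (Module.finrank k (LinearMap.ker (T - 1)) : k) =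
      ∑ j ∈ Finset.range m, LinearMap.trace k V (T ^ j) := by
  have hm0 : (m : k) ≠ 0 := by exact_mod_cast hm.ne'
  have hp : LinearMap.IsProj (LinearMap.ker (T - 1)) ((m : k)⁻¹ • ∑ j ∈ Finset.range m, T ^ j) := by
    constructor
    · intro x
      rw [LinearMap.mem_ker]
      have h1 : (T - 1) * ((m : k)⁻¹ • ∑ j ∈ Finset.range m, T ^ j) = 0 := by
        rw [mul_smul_comm, mul_geom_sum, hT, sub_self, smul_zero]
      exact congrArg (fun A : V →ₗ[k] V => A x) h1
    · intro x hx
      have h1 : T x = x := by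
        have h2 : T x - x = 0 := LinearMap.mem_ker.1 hx
        exact sub_eq_zero.1 h2
      have h2 : ∀ j : ℕ, (T ^ j) x = x := by
        intro j
        induction j with
        | zero => rfl
        | succ j ih =>
          rw [pow_succ]
          show (T ^ j) (T x) = x
          rw [h1, ih]
      rw [LinearMap.smul_apply, LinearMap.sum_apply, Finset.sum_congr rfl (fun j _ => h2 j),
        Finset.sum_const, Finset.card_range, ← Nat.cast_smul_eq_nsmul k, smul_smul,
        inv_mul_cancel₀ hm0, one_smul]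
  have h1 := hp.trace
  rw [map_smul, map_sum, smul_eq_mul] at h1
  rw [← h1, ← mul_assoc, mul_inv_cancel₀ hm0, one_mul]

theorem det_iso (B : V →ₗ[k] V →ₗ[k] k) (hB : Symm B) (T : V →ₗ[k] V)
    (hT : ∀ x y, B (T x) (T y) = B x y) :
    LinearMap.det T = ((((-1 : ℤˣ) ^ ((Module.finrank k V : ℤ) -
      (Module.finrank k (LinearMap.ker (T - 1)) : ℤ)) : ℤˣ) : ℤ) : k) := by
  rw [CP18.det_isometry B hB.nondeg hB.symm T hT]
  have h1 := LinearMap.finrank_range_add_finrank_ker (T - 1)
  have h2 : (Module.finrank k V : ℤ) - (Module.finrank k (LinearMap.ker (T - 1)) : ℤ) =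
      (Module.finrank k (LinearMap.range (T - 1)) : ℤ) := by
    omega
  rw [h2, zpow_natCast]
  push_cast
  rfl

end avg

/-- the sign of a permutation -/
theorem sign_eq (k : Type) [Field k] [CharZero k] (X : Type) [Fintype X] (σ : Equiv.Perm X)
    (m : ℕ) (hm : 0 < m) (hσ : σ ^ m = 1) :
    ∃ d : ℕ, Equiv.Perm.sign σ = (-1 : ℤˣ) ^ ((Fintype.card X : ℤ) - (d : ℤ)) ∧
      (m : k) * (d : k) = ∑ j ∈ Finset.range m, ((Function.fixedPoints ⇑(σ ^ j)).ncard : k) := by
  set T : (X → k) →ₗ[k] (X → k) := Matrix.toLin' (σ.permMatrix k) with hTd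
  have hpow : ∀ j : ℕ, (σ ^ j).permMatrix k = (σ.permMatrix k) ^ j := by
    intro j
    induction j with
    | zero => rw [pow_zero, pow_zero, Matrix.permMatrix_one]
    | succ j ih => rw [pow_succ, Matrix.permMatrix_mul, ih, pow_succ']
  have hTpow : ∀ j : ℕ, T ^ j = Matrix.toLin' ((σ ^ j).permMatrix k) := by
    intro j
    rw [hpow, hTd, Matrix.toLin'_pow]
  have hT : T ^ m = 1 := by
    rw [hTpow, hσ, Matrix.permMatrix_one, Matrix.toLin'_one]
    rfl
  have happ : ∀ f, T f = f ∘ σ := by
    intro f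
    rw [hTd, Matrix.toLin'_apply, Matrix.permMatrix_mulVec]
  let B : (X → k) →ₗ[k] (X → k) →ₗ[k] k := Matrix.toLinearMap₂' k (1 : Matrix X X k)
  have hBa : ∀ f f' : X → k, B f f' = ∑ x, f x * f' x := by
    intro f f'
    show Matrix.toLinearMap₂' k (1 : Matrix X X k) f f' = _
    rw [Matrix.toLinearMap₂'_apply']
    rw [Matrix.one_mulVec]
    rfl
  have hB : Symm B := by
    constructor
    · intro x y
      rw [hBa, hBa]
      exact Finset.sum_congr rfl (fun i _ => mul_comm _ _)
    · intro y hy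
      funext i
      have h1 := hy (Pi.single i 1)
      rw [hBa, Finset.sum_eq_single i] at h1
      · simpa using h1
      · intro j _ hj
        rw [Pi.single_eq_of_ne hj, zero_mul]
      · intro h
        exact absurd (Finset.mem_univ _) h
  have hiso : ∀ x y, B (T x) (T y) = B x y := by
    intro x y
    rw [hBa, hBa, happ, happ]
    exact Equiv.sum_comp σ (fun i => x i * y i)
  refine ⟨Module.finrank k (LinearMap.ker (T - 1)), ?_, ?_⟩
  · have h1 := det_iso B hB T hiso
    rw [hTd, LinearMap.det_toLin', Matrix.det_permutation, ← hTd] at h1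
    have h2 : Module.finrank k (X → k) = Fintype.card X := Module.finrank_fintype_fun_eq_card k
    rw [h2] at h1
    have h3 : ((Equiv.Perm.sign σ : ℤˣ) : ℤ) = (((-1 : ℤˣ) ^ ((Fintype.card X : ℤ) -
      (Module.finrank k (LinearMap.ker (T - 1)) : ℤ)) : ℤˣ) : ℤ) := by
      exact_mod_cast h1
    exact Units.ext h3
  · rw [avg_trace T m hm hT]
    apply Finset.sum_congr rfl
    intro j _
    rw [hTpow, Matrix.trace_toLin'_eq, Matrix.trace_permutation]

theorem prod_neg_one_zpow {ι : Type} (s : Finset ι) (a c : ι → ℤ) :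
    ∏ i ∈ s, (((-1 : ℤˣ) ^ a i) ^ c i) = (-1 : ℤˣ) ^ (∑ i ∈ s, c i * a i) := by
  induction s using Finset.induction_on with
  | empty => simp
  | insert i s hi ih =>
    rw [Finset.prod_insert hi, Finset.sum_insert hi, ih, zpow_add, ← zpow_mul, mul_comm (a i)]

theorem st_DET : ST_DET := by
  intro S _ _ k V _ _ _ _ _ B hB r hr c hc g
  haveI : Fintype (Subgroup S) := Fintype.ofFinite _
  have hm : 0 < Nat.card S := Nat.card_pos
  have hm0 : (Nat.card S : k) ≠ 0 := by exact_mod_cast hm.ne'
  have hg : g ^ Nat.card S = 1 := pow_card_eq_one'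
  rw [det_iso B hB (r g) (fun x y => hr g x y), finprod_eq_prod_of_fintype]
  congr 2
  have h1 : ∀ H : Subgroup S, ∃ d : ℕ, sgn H g = (-1 : ℤˣ) ^ ((Nat.card (S ⧸ H) : ℤ) - (d : ℤ)) ∧
      (Nat.card S : k) * (d : k) = ∑ j ∈ Finset.range (Nat.card S), (fxn H (g ^ j) : k) := by
    intro H
    letI := Fintype.ofFinite (S ⧸ H)
    have hpw : ∀ j : ℕ, (MulAction.toPerm g : Equiv.Perm (S ⧸ H)) ^ j =
        MulAction.toPerm (g ^ j) := by
      intro j
      have h2 := map_pow (MulAction.toPermHom S (S ⧸ H)) g j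
      exact h2.symm
    obtain ⟨d, hd1, hd2⟩ := sign_eq k (S ⧸ H) (MulAction.toPerm g : Equiv.Perm (S ⧸ H))
      (Nat.card S) hm (by
        rw [hpw, hg]
        ext x
        exact one_smul S x)
    refine ⟨d, ?_, ?_⟩
    · rw [Nat.card_eq_fintype_card, ← hd1]
      unfold sgn
      congr
      exact Subsingleton.elim _ _
    · rw [hd2]
      apply Finset.sum_congr rfl
      intro j _
      rw [hpw]
      rfl
  choose d hd1 hd2 using h1
  have h2 : ∏ H : Subgroup S, sgn H g ^ c H =
      (-1 : ℤˣ) ^ (∑ H : Subgroup S, c H * ((Nat.card (S ⧸ H) : ℤ) - (d H : ℤ))) := by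
    rw [← prod_neg_one_zpow]
    exact Finset.prod_congr rfl (fun H _ => by rw [hd1 H])
  rw [h2]
  congr 1
  have hc' : ∀ g, LinearMap.trace k V (r g) = ∑ H : Subgroup S, (c H : k) * (fxn H g : k) := by
    intro g
    rw [hc g, finsum_eq_sum_of_fintype]
  have h3 : (Module.finrank k V : ℤ) = ∑ H : Subgroup S, c H * (Nat.card (S ⧸ H) : ℤ) := by
    have h4 := hc' 1
    rw [map_one, LinearMap.trace_one] at h4
    have h5 : ∀ H : Subgroup S, fxn H (1 : S) = Nat.card (S ⧸ H) := by
      intro H
      unfold fxn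
      have h5 : ∀ x : S ⧸ H, (1 : S) • x = x := fun x => one_smul _ x
      exact Nat.card_congr (Equiv.subtypeUnivEquiv h5)
    simp only [h5] at h4
    exact_mod_cast h4
  have h4 : (Module.finrank k (LinearMap.ker (r g - 1)) : ℤ) =
      ∑ H : Subgroup S, c H * (d H : ℤ) := by
    have h5 := avg_trace (r g) (Nat.card S) hm (by rw [← map_pow, hg, map_one])
    have h6 : (Nat.card S : k) * (Module.finrank k (LinearMap.ker (r g - 1)) : k) =
        (Nat.card S : k) * ∑ H : Subgroup S, (c H : k) * (d H : k) := by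
      rw [h5]
      have h7 : ∀ j : ℕ, LinearMap.trace k V (r g ^ j) =
          ∑ H : Subgroup S, (c H : k) * (fxn H (g ^ j) : k) := by
        intro j
        rw [← map_pow, hc']
      simp only [h7]
      rw [Finset.sum_comm, Finset.mul_sum]
      apply Finset.sum_congr rfl
      intro H _
      rw [← Finset.mul_sum, ← hd2 H]
      ring
    have h7 := mul_left_cancel₀ hm0 h6
    exact_mod_cast h7
  rw [h3, h4, ← Finset.sum_sub_distrib]
  apply Finset.sum_congr rfl
  intro H _
  ring

end PQ22
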