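import Pool.Agent.Helper94.PQ.Stmts

/-!
# Row PC: operations on permutation characters
-/

set_option autoImplicit false

open scoped Classical

namespace PQ22

open PQ

variable {S k : Type} [Group S] [Finite S] [Field k] [CharZero k]

/-- fixed points on cosets by counting group elements -/
theorem fxn_mul (H : Subgroup S) (g : S) :
    fxn H g * Nat.card H = Nat.card {x : S // x⁻¹ * (g * x) ∈ H} := by
  have h1 := Nat.card_congr (QuotientGroup.preimageMkEquivSubgroupProdSet H {x : S ⧸ H | g • x = x})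
  rw [Nat.card_prod] at h1
  have h2 : fxn H g = Nat.card {x : S ⧸ H | g • x = x} := rfl
  rw [h2, mul_comm, ← h1]
  apply Nat.card_congr
  apply Equiv.subtypeEquivRight
  intro x
  have h3 : g • (QuotientGroup.mk x : S ⧸ H) = QuotientGroup.mk (g * x) := rfl
  show g • (QuotientGroup.mk x : S ⧸ H) = QuotientGroup.mk x ↔ _
  rw [h3, eq_comm, QuotientGroup.eq]

theorem permCh_fxn (H : Subgroup S) : PermCh (fun g : S => (fxn H g : k)) := by
  refine ⟨fun K => if K = H then 1 else 0, fun g => ?_⟩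
  rw [finsum_eq_single _ H]
  · simp
  · intro K hK
    simp [hK]

theorem permCh_zero : PermCh (fun _ : S => (0 : k)) := by
  refine ⟨fun _ => 0, fun g => ?_⟩
  simp

theorem permCh_add {f f' : S → k} (h : PermCh f) (h' : PermCh f') :
    PermCh (fun g => f g + f' g) := by
  obtain ⟨c, hc⟩ := h
  obtain ⟨c', hc'⟩ := h'
  refine ⟨fun H => c H + c' H, fun g => ?_⟩
  show f g + f' g = _
  rw [hc g, hc' g, ← finsum_add_distrib (Set.toFinite _) (Set.toFinite _)]
  apply finsum_congr
  intro H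
  push_cast
  ring

theorem permCh_smul {f : S → k} (a : ℤ) (h : PermCh f) : PermCh (fun g => (a : k) * f g) := by
  obtain ⟨c, hc⟩ := h
  refine ⟨fun H => a * c H, fun g => ?_⟩
  show (a : k) * f g = _
  rw [hc g, mul_finsum]
  apply finsum_congr
  intro H
  push_cast
  ring

theorem permCh_sum {ι : Type} (s : Finset ι) (f : ι → S → k) (h : ∀ i ∈ s, PermCh (f i)) :
    PermCh (fun g => ∑ i ∈ s, f i g) := by
  induction s using Finset.induction_on with
  | empty => simpa using permCh_zero (S := S) (k := k)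
  | insert a s ha ih =>
    have h1 := permCh_add (h a (Finset.mem_insert_self _ _))
      (ih (fun i hi => h i (Finset.mem_insert_of_mem hi)))
    have h2 : (fun g => ∑ i ∈ insert a s, f i g) = fun g => f a g + ∑ i ∈ s, f i g := by
      funext g
      rw [Finset.sum_insert ha]
    rw [h2]
    exact h1

theorem permCh_congr {f f' : S → k} (h : PermCh f) (e : ∀ g, f' g = f g) : PermCh f' := by
  obtain ⟨c, hc⟩ := h
  exact ⟨c, fun g => by rw [e g, hc g]⟩

/-- finite combinations -/
theorem permCh_comb {T : Type} [Group T] [Finite T] (c : Subgroup T → ℤ) (F : Subgroup T → S → k)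
    (h : ∀ H, PermCh (F H)) : PermCh (fun g => ∑ᶠ H : Subgroup T, (c H : k) * F H g) := by
  haveI : Fintype (Subgroup T) := Fintype.ofFinite _
  have h1 := permCh_sum (Finset.univ : Finset (Subgroup T)) (fun H g => (c H : k) * F H g)
    (fun H _ => permCh_smul (c H) (h H))
  apply permCh_congr h1
  intro g
  rw [finsum_eq_sum_of_fintype]

/-- inflation -/
theorem fxn_comap (N : Subgroup S) [N.Normal] (H : Subgroup (S ⧸ N)) (g : S) :
    fxn (H.comap (QuotientGroup.mk' N)) g = fxn H (g : S ⧸ N) := by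
  have h1 := fxn_mul (H.comap (QuotientGroup.mk' N)) g
  have h2 := fxn_mul H (g : S ⧸ N)
  have h3 : Nat.card {x : S // x⁻¹ * (g * x) ∈ H.comap (QuotientGroup.mk' N)} =
      Nat.card N * Nat.card {y : S ⧸ N // y⁻¹ * ((g : S ⧸ N) * y) ∈ H} := by
    have h4 := Nat.card_congr (QuotientGroup.preimageMkEquivSubgroupProdSet N
      {y : S ⧸ N | y⁻¹ * ((g : S ⧸ N) * y) ∈ H})
    rw [Nat.card_prod] at h4
    exact h4
  have h5 : Nat.card (H.comap (QuotientGroup.mk' N)) = Nat.card N * Nat.card H := by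
    have h4 := Nat.card_congr (QuotientGroup.preimageMkEquivSubgroupProdSet N
      (H : Set (S ⧸ N)))
    rw [Nat.card_prod] at h4
    exact h4
  rw [h3, h5, ← h2] at h1
  have h6 : 0 < Nat.card N * Nat.card H := Nat.mul_pos Nat.card_pos Nat.card_pos
  apply Nat.eq_of_mul_eq_mul_right h6
  rw [h1]
  ring

section index2

variable (C : Subgroup S) (s : S) (hs : s ∉ C) (hC : ∀ g : S, g ∈ C ∨ s⁻¹ * g ∈ C)

include hs hC

theorem sq_mem : s * s ∈ C := by
  rcases hC (s * s) with h | h
  · exact h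
  · exfalso
    apply hs
    simpa [mul_assoc] using h

theorem conj_mem (g : S) (hg : g ∈ C) : s⁻¹ * g * s ∈ C := by
  rcases hC (s⁻¹ * g * s) with h | h
  · exact h
  · exfalso
    apply hs
    have h1 : s = g⁻¹ * (s * s) * (s⁻¹ * (s⁻¹ * g * s)) := by group
    rw [h1]
    exact C.mul_mem (C.mul_mem (C.inv_mem hg) (sq_mem C s hs hC)) h

theorem conj_mem' (g : S) (hg : s⁻¹ * g * s ∈ C) : g ∈ C := by
  rcases hC g with h | h
  · exact h
  · exfalso
    apply hs
    have h1 : s = (s⁻¹ * g)⁻¹ * (s⁻¹ * g * s) := by group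
    rw [h1]
    exact C.mul_mem (C.inv_mem h) hg

theorem conj_mem'' (g x : S) (h : x⁻¹ * (g * x) ∈ C) : g ∈ C := by
  rcases hC x with hx | hx
  · have h1 : g = x * (x⁻¹ * (g * x)) * x⁻¹ := by group
    rw [h1]
    exact C.mul_mem (C.mul_mem hx h) (C.inv_mem hx)
  · apply conj_mem' C s hs hC
    have h1 : s⁻¹ * g * s = (s⁻¹ * x) * (x⁻¹ * (g * x)) * (s⁻¹ * x)⁻¹ := by group
    rw [h1]
    exact C.mul_mem (C.mul_mem hx h) (C.inv_mem hx)

theorem fxn_map_not (H : Subgroup C) (g : S) (hg : g ∉ C) : fxn (H.map C.subtype) g = 0 := by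
  have h1 := fxn_mul (H.map C.subtype) g
  have h2 : IsEmpty {x : S // x⁻¹ * (g * x) ∈ H.map C.subtype} := by
    constructor
    rintro ⟨x, hx⟩
    apply hg
    apply conj_mem'' C s hs hC g x
    obtain ⟨y, _, hy⟩ := Subgroup.mem_map.1 hx
    rw [← hy]
    exact y.2
  have h2' : Nat.card {x : S // x⁻¹ * (g * x) ∈ H.map C.subtype} = 0 := Nat.card_of_isEmpty
  rw [h2'] at h1
  rcases Nat.mul_eq_zero.1 h1 with h3 | h3
  · exact h3
  · exact absurd h3 Nat.card_pos.ne'

theorem fxn_map (H : Subgroup C) (g g' : C) (hgg : (g' : S) = s⁻¹ * g * s) :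
    fxn (H.map C.subtype) (g : S) = fxn H g + fxn H g' := by
  have h1 := fxn_mul (H.map C.subtype) (g : S)
  have h2 := fxn_mul H g
  have h3 := fxn_mul H g'
  have h4 : Nat.card (H.map C.subtype) = Nat.card H :=
    Nat.card_congr (H.equivMapOfInjective C.subtype C.subtype_injective).toEquiv.symm
  have mem : ∀ y : C, ((y : S) ∈ H.map C.subtype) ↔ y ∈ H := by
    intro y
    constructor
    · intro hy
      obtain ⟨z, hz, hz'⟩ := Subgroup.mem_map.1 hy
      have : z = y := C.subtype_injective hz'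
      rw [← this]
      exact hz
    · intro hy
      exact Subgroup.mem_map.2 ⟨y, hy, rfl⟩
  have p1 : ∀ y : C, (y : S)⁻¹ * ((g : S) * y) ∈ H.map C.subtype ↔ y⁻¹ * (g * y) ∈ H := by
    intro y
    rw [← mem]
    rfl
  have p2 : ∀ y : C, (s * (y : S))⁻¹ * ((g : S) * (s * y)) ∈ H.map C.subtype ↔
      y⁻¹ * (g' * y) ∈ H := by
    intro y
    rw [← mem]
    have : (s * (y : S))⁻¹ * ((g : S) * (s * y)) = ((y⁻¹ * (g' * y) : C) : S) := by
      push_cast
      rw [hgg]
      group
    rw [this]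
  have h5 : Nat.card {x : S // x⁻¹ * ((g : S) * x) ∈ H.map C.subtype} =
      Nat.card {y : C // y⁻¹ * (g * y) ∈ H} + Nat.card {y : C // y⁻¹ * (g' * y) ∈ H} := by
    rw [← Nat.card_sum]
    apply Nat.card_congr
    symm
    apply Equiv.ofBijective (fun z : {y : C // y⁻¹ * (g * y) ∈ H} ⊕ {y : C // y⁻¹ * (g' * y) ∈ H} =>
      (Sum.elim (fun y => ⟨(y.1 : S), (p1 y.1).2 y.2⟩) (fun y => ⟨s * (y.1 : S), (p2 y.1).2 y.2⟩) z :
        {x : S // x⁻¹ * ((g : S) * x) ∈ H.map C.subtype}))
    constructor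
    · rintro (⟨y, hy⟩ | ⟨y, hy⟩) (⟨y', hy'⟩ | ⟨y', hy'⟩) h
      · have h6 : (y : S) = y' := 
          congrArg (Subtype.val (p := fun x : S => x⁻¹ * ((g : S) * x) ∈ H.map C.subtype)) h
        have : y = y' := Subtype.ext h6
        subst this
        rfl
      · exfalso
        have h6 : (y : S) = s * y' := 
          congrArg (Subtype.val (p := fun x : S => x⁻¹ * ((g : S) * x) ∈ H.map C.subtype)) h
        apply hs
        have h7 : s = (y : S) * (y' : S)⁻¹ := by rw [h6]; group
        rw [h7]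
        exact C.mul_mem y.2 (C.inv_mem y'.2)
      · exfalso
        have h6 : s * (y : S) = y' := 
          congrArg (Subtype.val (p := fun x : S => x⁻¹ * ((g : S) * x) ∈ H.map C.subtype)) h
        apply hs
        have h7 : s = (y' : S) * (y : S)⁻¹ := by rw [← h6]; group
        rw [h7]
        exact C.mul_mem y'.2 (C.inv_mem y.2)
      · have h6 : s * (y : S) = s * y' := 
          congrArg (Subtype.val (p := fun x : S => x⁻¹ * ((g : S) * x) ∈ H.map C.subtype)) h
        have : y = y' := Subtype.ext (mul_left_cancel h6)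
        subst this
        rfl
    · rintro ⟨x, hx⟩
      rcases hC x with h | h
      · exact ⟨Sum.inl ⟨⟨x, h⟩, (p1 ⟨x, h⟩).1 hx⟩, rfl⟩
      · have h6 : s * (s⁻¹ * x) = x := by group
        refine ⟨Sum.inr ⟨⟨s⁻¹ * x, h⟩, (p2 ⟨s⁻¹ * x, h⟩).1 ?_⟩, ?_⟩
        · show (s * (s⁻¹ * x))⁻¹ * ((g : S) * (s * (s⁻¹ * x))) ∈ _
          rw [h6]
          exact hx
        · apply Subtype.ext
          exact h6
  rw [h5, h4, ← h2, ← h3, ← add_mul] at h1
  exact Nat.eq_of_mul_eq_mul_right Nat.card_pos h1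

end index2

theorem st_PC : ST_PC := by
  intro S k _ _ _ _
  refine ⟨permCh_fxn, fun f f' h h' => permCh_add h h', fun f a h => permCh_smul a h, ?_, ?_⟩
  · intro N _ f hf
    obtain ⟨c, hc⟩ := hf
    apply permCh_congr (permCh_comb c (fun H g => (fxn (H.comap (QuotientGroup.mk' N)) g : k))
      (fun H => permCh_fxn _))
    intro g
    rw [hc]
    apply finsum_congr
    intro H
    rw [fxn_comap]
  · intro C s f hs hC hf F hF0 hF
    obtain ⟨c, hc⟩ := hf
    apply permCh_congr (permCh_comb c (fun H g => (fxn (H.map C.subtype) g : k))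
      (fun H => permCh_fxn _))
    intro g
    by_cases hg : g ∈ C
    · have h1 := hF ⟨g, hg⟩ ⟨s⁻¹ * g * s, conj_mem C s hs hC g hg⟩ rfl
      show F g = _
      have h2 : F g = f ⟨g, hg⟩ + f ⟨s⁻¹ * g * s, conj_mem C s hs hC g hg⟩ := h1
      rw [h2, hc, hc, ← finsum_add_distrib (Set.toFinite _) (Set.toFinite _)]
      apply finsum_congr
      intro H
      rw [fxn_map C s hs hC H ⟨g, hg⟩ ⟨s⁻¹ * g * s, conj_mem C s hs hC g hg⟩ rfl]
      push_cast
      ring
    · rw [hF0 g hg]
      symm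
      rw [← finsum_zero (α := Subgroup C)]
      apply finsum_congr
      intro H
      rw [fxn_map_not C s hs hC H g hg]
      simp

end PQ22
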