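import Pool.Agent.Helper94.PQ.Stmts

/-!
# Row RS: rational orthogonal representations of two-groups
-/

set_option autoImplicit false

open scoped Classical

namespace PQ22

open PQ

section proj

variable {G k V : Type} [Group G] [Field k] [CharZero k] [AddCommGroup V] [Module k V]
  [FiniteDimensional k V]

/-- a self-adjoint projection that commutes with the group, with rational character -/
structure Proj (B : V →ₗ[k] V →ₗ[k] k) (r : G →* (V →ₗ[k] V)) (E : V →ₗ[k] V) : Prop where
  idem : E * E = E
  comm : ∀ g, r g * E = E * r g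
  adj : ∀ x y, B (E x) y = B x (E y)
  rat : ∀ g (u : ℕ), Odd u → LinearMap.trace k V (r (g ^ u) * E) = LinearMap.trace k V (r g * E)

/-- the projection attached to an involution and a sign -/
noncomputable def pr (r : G →* (V →ₗ[k] V)) (x : G) (e : k) : V →ₗ[k] V :=
  (2 : k)⁻¹ • (1 + e • r x)

omit [CharZero k] [FiniteDimensional k V] in
theorem r_sq (r : G →* (V →ₗ[k] V)) (x : G) (hx : x * x = 1) : r x * r x = 1 := by
  rw [← map_mul, hx, map_one]

omit [FiniteDimensional k V] in
theorem pr_idem (r : G →* (V →ₗ[k] V)) (x : G) (hx : x * x = 1) (e : k) (he : e * e = 1) :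
    pr r x e * pr r x e = pr r x e := by
  unfold pr
  have h1 : (1 + e • r x) * (1 + e • r x) = (2 : k) • (1 + e • r x) := by
    rw [add_mul, mul_add, mul_add, smul_mul_smul_comm, r_sq r x hx, he, one_smul, one_mul,
      mul_one, one_mul, two_smul]
    abel
  rw [smul_mul_smul_comm, h1, smul_smul]
  congr 1
  have h2 : (2 : k) ≠ 0 := two_ne_zero
  field_simp

omit [CharZero k] [FiniteDimensional k V] in
theorem pr_comm (r : G →* (V →ₗ[k] V)) (x : G) (e : k) (A : V →ₗ[k] V) (hA : r x * A = A * r x) :
    pr r x e * A = A * pr r x e := by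
  unfold pr
  rw [smul_mul_assoc, mul_smul_comm, add_mul, mul_add, smul_mul_assoc, mul_smul_comm, hA, one_mul,
    mul_one]

omit [CharZero k] [FiniteDimensional k V] in
theorem pr_adj (B : V →ₗ[k] V →ₗ[k] k) (r : G →* (V →ₗ[k] V))
    (hr : ∀ g x y, B (r g x) (r g y) = B x y) (x : G) (hx : x * x = 1) (e : k) (v w : V) :
    B (pr r x e v) w = B v (pr r x e w) := by
  have h1 : B (r x v) w = B v (r x w) := by
    rw [← hr x (r x v) w]
    have h2 : r x (r x v) = (r x * r x) v := rfl
    rw [h2, r_sq r x hx]
    rfl
  have h3 : ∀ y, pr r x e y = (2 : k)⁻¹ • (y + e • r x y) := fun y => rfl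
  rw [h3, h3]
  simp only [map_smul, map_add, LinearMap.smul_apply, LinearMap.add_apply, h1]

omit [FiniteDimensional k V] in
theorem r_mul_pr (r : G →* (V →ₗ[k] V)) (x : G) (hx : x * x = 1) (e : k) (he : e * e = 1) :
    r x * pr r x e = e • pr r x e := by
  unfold pr
  rw [mul_smul_comm, mul_add, mul_smul_comm, r_sq r x hx, mul_one, smul_comm e (2 : k)⁻¹,
    smul_add e, smul_smul e e, he, one_smul, add_comm]

theorem trace_rat (r : G →* (V →ₗ[k] V)) (E : V →ₗ[k] V)
    (hE : ∀ g (u : ℕ), Odd u →
      LinearMap.trace k V (r (g ^ u) * E) = LinearMap.trace k V (r g * E))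
    (x : G) (hx : x * x = 1) (hc : ∀ g, g * x = x * g) (e : k) (g : G) (u : ℕ) (hu : Odd u) :
    LinearMap.trace k V (r (g ^ u) * (pr r x e * E)) =
      LinearMap.trace k V (r g * (pr r x e * E)) := by
  have h1 : ∀ g : G, LinearMap.trace k V (r g * (pr r x e * E)) =
      (2 : k)⁻¹ * (LinearMap.trace k V (r g * E) + e * LinearMap.trace k V (r (g * x) * E)) := by
    intro g
    have h2 : r g * (pr r x e * E) = (2 : k)⁻¹ • (r g * E + e • (r (g * x) * E)) := by
      unfold pr
      rw [smul_mul_assoc, mul_smul_comm, add_mul, one_mul, mul_add, smul_mul_assoc, mul_smul_comm,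
        map_mul, mul_assoc]
    rw [h2, map_smul, map_add, map_smul, smul_eq_mul, smul_eq_mul]
  have h3 : g ^ u * x = (g * x) ^ u := by
    have h4 : Commute g x := hc g
    rw [h4.mul_pow]
    obtain ⟨m, hm⟩ := hu
    have h5 : x ^ u = x := by
      rw [hm, pow_succ, pow_mul, pow_two, hx, one_pow, one_mul]
    rw [h5]
  rw [h1, h1, h3, hE g u hu, hE (g * x) u hu]

theorem Proj.one {B : V →ₗ[k] V →ₗ[k] k} {r : G →* (V →ₗ[k] V)}
    (h : ∀ g (u : ℕ), Odd u → LinearMap.trace k V (r (g ^ u)) = LinearMap.trace k V (r g)) :
    Proj B r 1 where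
  idem := mul_one _
  comm := fun g => by rw [mul_one, one_mul]
  adj := fun _ _ => rfl
  rat := fun g u hu => by rw [mul_one, mul_one]; exact h g u hu

theorem Proj.proj {B : V →ₗ[k] V →ₗ[k] k} {r : G →* (V →ₗ[k] V)} {E : V →ₗ[k] V} (h : Proj B r E)
    (hr : ∀ g x y, B (r g x) (r g y) = B x y)
    (x : G) (hx : x * x = 1) (hc : ∀ g, g * x = x * g) (e : k) (he : e * e = 1) :
    Proj B r (pr r x e * E) where
  idem := by
    have h1 : pr r x e * E = E * pr r x e := pr_comm r x e E (h.comm x)
    calc PQ22.pr r x e * E * (PQ22.pr r x e * E)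
        = PQ22.pr r x e * (E * PQ22.pr r x e) * E := by simp only [mul_assoc]
      _ = PQ22.pr r x e * (PQ22.pr r x e * E) * E := by rw [h1]
      _ = PQ22.pr r x e * PQ22.pr r x e * (E * E) := by simp only [mul_assoc]
      _ = _ := by rw [pr_idem r x hx e he, h.idem]
  comm := by
    intro g
    have h1 : pr r x e * r g = r g * pr r x e := pr_comm r x e (r g) (by
      rw [← map_mul, ← map_mul, hc g])
    calc r g * (PQ22.pr r x e * E) = r g * PQ22.pr r x e * E := by rw [mul_assoc]
      _ = PQ22.pr r x e * (r g * E) := by rw [← h1, mul_assoc]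
      _ = _ := by rw [h.comm g, mul_assoc]
  adj := by
    intro v w
    have h1 : pr r x e * E = E * pr r x e := pr_comm r x e E (h.comm x)
    have h2 : (pr r x e * E) v = pr r x e (E v) := rfl
    have h3 : (pr r x e * E) w = E (pr r x e w) := by rw [h1]; rfl
    rw [h2, h3, pr_adj B r hr x hx e, h.adj]
  rat := trace_rat r E h.rat x hx hc e

/-- the representation on the range of a projection -/
theorem exists_restrict (B : V →ₗ[k] V →ₗ[k] k) (hB : Symm B) (r : G →* (V →ₗ[k] V))
    (hr : ∀ g x y, B (r g x) (r g y) = B x y) (E : V →ₗ[k] V) (hE : Proj B r E) :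
    ∃ (W : Submodule k V) (B' : W →ₗ[k] W →ₗ[k] k) (r' : G →* (W →ₗ[k] W)), Symm B' ∧
      (∀ g x y, B' (r' g x) (r' g y) = B' x y) ∧ (∀ g (x : W), (r' g x : V) = r g x) ∧
      (∀ x ∈ W, E x = x) ∧
      ∀ g, LinearMap.trace k W (r' g) = LinearMap.trace k V (r g * E) := by
  have fix : ∀ x ∈ LinearMap.range E, E x = x := by
    rintro x ⟨y, rfl⟩
    have : E (E y) = (E * E) y := rfl
    rw [this, hE.idem]
  have stab : ∀ g, ∀ x ∈ LinearMap.range E, r g x ∈ LinearMap.range E := by
    rintro g x ⟨y, rfl⟩
    refine ⟨r g y, ?_⟩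
    have h1 : (E * r g) y = (r g * E) y := by rw [hE.comm]
    exact h1
  refine ⟨LinearMap.range E, (B.domRestrict₁₂ (LinearMap.range E) (LinearMap.range E)),
    { toFun := fun g => (r g).restrict (stab g)
      map_one' := by
        apply LinearMap.ext
        intro x
        apply Subtype.ext
        show r 1 (x : V) = x
        rw [map_one]
        rfl
      map_mul' := by
        intro g h
        apply LinearMap.ext
        intro x
        apply Subtype.ext
        show r (g * h) (x : V) = r g (r h x)
        rw [map_mul]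
        rfl }, ⟨?_, ?_⟩, ?_, ?_, fix, ?_⟩
  · intro x y
    exact hB.symm _ _
  · intro y hy
    apply Subtype.ext
    apply hB.nondeg
    intro x
    have h1 := hy ⟨E x, ⟨x, rfl⟩⟩
    have h2 : B (E x) (y : V) = 0 := h1
    rw [hE.adj, fix _ y.2] at h2
    exact h2
  · intro g x y
    exact hr g x y
  · intro g x
    rfl
  · intro g
    have h1 : ∀ x, (r g * E) x ∈ LinearMap.range E := fun x => stab g _ ⟨x, rfl⟩
    have h2 := LinearMap.trace_restrict_eq_of_forall_mem (LinearMap.range E) (r g * E) h1
    rw [← h2]
    congr 1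
    apply LinearMap.ext
    intro x
    apply Subtype.ext
    show r g (x : V) = r g (E x)
    rw [fix _ x.2]

end proj

/-- the statement for one group -/
def Good (T k : Type) [Group T] [Field k] : Prop :=
  ∀ (V : Type) [AddCommGroup V] [Module k V] [FiniteDimensional k V]
    (B : V →ₗ[k] V →ₗ[k] k), Symm B →
  ∀ r : T →* (V →ₗ[k] V), (∀ g x y, B (r g x) (r g y) = B x y) →
    (∀ g (u : ℕ), Odd u → LinearMap.trace k V (r (g ^ u)) = LinearMap.trace k V (r g)) →
    PermCh (fun g => LinearMap.trace k V (r g))

section good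

variable {G k V : Type} [Group G] [Field k] [CharZero k] [AddCommGroup V] [Module k V]
  [FiniteDimensional k V]

theorem perm_of_good (hG : Good G k) (B : V →ₗ[k] V →ₗ[k] k) (hB : Symm B)
    (r : G →* (V →ₗ[k] V)) (hr : ∀ g x y, B (r g x) (r g y) = B x y) (E : V →ₗ[k] V)
    (hE : Proj B r E) : PermCh (fun g => LinearMap.trace k V (r g * E)) := by
  obtain ⟨W, B', r', h1, h2, -, -, h5⟩ := exists_restrict B hB r hr E hE
  have h6 := hG W B' h1 r' h2 (fun g u hu => by rw [h5, h5]; exact hE.rat g u hu)
  have h7 : (fun g => LinearMap.trace k V (r g * E)) = fun g => LinearMap.trace k W (r' g) := by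
    funext g
    rw [h5]
  rw [h7]
  exact h6

theorem perm_of_quot (hPC : ST_PC) [Finite G] (N : Subgroup G) [N.Normal] (hG : Good (G ⧸ N) k)
    (B : V →ₗ[k] V →ₗ[k] k) (hB : Symm B)
    (r : G →* (V →ₗ[k] V)) (hr : ∀ g x y, B (r g x) (r g y) = B x y) (E : V →ₗ[k] V)
    (hE : Proj B r E) (hN : ∀ n ∈ N, r n * E = E) :
    PermCh (fun g => LinearMap.trace k V (r g * E)) := by
  obtain ⟨W, B', r', h1, h2, h3, h4, h5⟩ := exists_restrict B hB r hr E hE
  have h6 : ∀ n ∈ N, r' n = 1 := by
    intro n hn
    apply LinearMap.ext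
    intro x
    apply Subtype.ext
    rw [h3]
    have h7 : (r n * E) (x : V) = E x := by rw [hN n hn]
    have h8 : r n (E x) = E x := h7
    rw [h4 _ x.2] at h8
    exact h8
  have h7 := hG W B' h1 (QuotientGroup.lift N r' h6) (by
      intro g x y
      obtain ⟨g, rfl⟩ := QuotientGroup.mk_surjective g
      exact h2 g x y) (by
      intro g u hu
      obtain ⟨g, rfl⟩ := QuotientGroup.mk_surjective g
      have h9 : LinearMap.trace k W (r' (g ^ u)) = LinearMap.trace k W (r' g) := by
        rw [h5, h5]
        exact hE.rat g u hu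
      exact h9)
  have h8 := (hPC G k).2.2.2.1 N _ h7
  have h9 : (fun g => LinearMap.trace k V (r g * E)) = fun g : G =>
      LinearMap.trace k W (QuotientGroup.lift N r' h6 (g : G ⧸ N)) := by
    funext g
    rw [← h5]
    rfl
  rw [h9]
  exact h8

end good

/-- the subgroup generated by a central involution -/
theorem normal_of_central {G : Type} [Group G] (x : G) (hc : ∀ g, g * x = x * g) :
    (Subgroup.zpowers x).Normal := by
  constructor
  rintro n ⟨j, rfl⟩ g
  refine ⟨j, ?_⟩
  have h1 : Commute g x := hc g
  have h2 : g * x ^ j = x ^ j * g := (h1.zpow_right j)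
  show x ^ j = g * x ^ j * g⁻¹
  rw [h2, mul_inv_cancel_right]

theorem card_quot_lt {G : Type} [Group G] [Finite G] (x : G) (hx : x ≠ 1) :
    Nat.card (G ⧸ Subgroup.zpowers x) < Nat.card G := by
  have h1 := (Subgroup.zpowers x).card_eq_card_quotient_mul_card_subgroup
  have h2 : 1 < Nat.card (Subgroup.zpowers x) := by
    rw [Finite.one_lt_card_iff_nontrivial]
    rw [Subgroup.nontrivial_iff_ne_bot]
    intro h3
    exact hx (Subgroup.zpowers_eq_bot.1 h3)
  have h3 : 0 < Nat.card (G ⧸ Subgroup.zpowers x) := Nat.card_pos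
  rw [h1]
  nlinarith

theorem zpow_fix {G k V : Type} [Group G] [Field k] [AddCommGroup V] [Module k V]
    (r : G →* (V →ₗ[k] V)) (x : G) (E : V →ₗ[k] V) (h : r x * E = E) :
    ∀ n ∈ Subgroup.zpowers x, r n * E = E := by
  rintro n ⟨j, rfl⟩
  show r (x ^ j) * E = E
  have h1 : r x⁻¹ * E = E := by
    conv_lhs => rw [← h]
    rw [← mul_assoc, ← map_mul, inv_mul_cancel, map_one, one_mul]
  have h2 : ∀ m : ℕ, r (x ^ m) * E = E := by
    intro m
    induction m with
    | zero => rw [pow_zero, map_one, one_mul]
    | succ m ih => rw [pow_succ, map_mul, mul_assoc, h, ih]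
  have h3 : ∀ m : ℕ, r (x⁻¹ ^ m) * E = E := by
    intro m
    induction m with
    | zero => rw [pow_zero, map_one, one_mul]
    | succ m ih => rw [pow_succ, map_mul, mul_assoc, h1, ih]
  obtain ⟨m, rfl | rfl⟩ := j.eq_nat_or_neg
  · rw [zpow_natCast]
    exact h2 m
  · rw [zpow_neg, zpow_natCast, ← inv_pow]
    exact h3 m

/-- the part where the central involution acts trivially -/
theorem perm_plus (hPC : ST_PC) {S k : Type} [Group S] [Finite S] [Field k] [CharZero k]
    (z : S) (hz : z ≠ 1) (hc : ∀ g, g * z = z * g)
    (hQ : ∀ [(Subgroup.zpowers z).Normal], Good (S ⧸ Subgroup.zpowers z) k)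
    (V : Type) [AddCommGroup V] [Module k V]
    [FiniteDimensional k V] (B : V →ₗ[k] V →ₗ[k] k) (hB : Symm B)
    (r : S →* (V →ₗ[k] V)) (hr : ∀ g x y, B (r g x) (r g y) = B x y)
    (E : V →ₗ[k] V) (hE : Proj B r E) (h : r z * E = E) :
    PermCh (fun g => LinearMap.trace k V (r g * E)) := by
  haveI := normal_of_central z hc
  exact perm_of_quot hPC _ hQ B hB r hr E hE (zpow_fix r z E h)

theorem good_trivial (hPC : ST_PC) (S k : Type) [Group S] [Finite S] [Field k] [CharZero k]
    (hS : ¬ Nontrivial S) : Good S k := by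
  haveI : Subsingleton S := not_nontrivial_iff_subsingleton.1 hS
  intro V _ _ _ B hB r hr hu
  have h1 := (hPC S k).2.2.1 _ (Module.finrank k V : ℤ) ((hPC S k).1 (⊤ : Subgroup S))
  have h2 : (fun g => LinearMap.trace k V (r g)) =
      fun g => ((Module.finrank k V : ℤ) : k) * (fxn (⊤ : Subgroup S) g : k) := by
    funext g
    have h3 : g = 1 := Subsingleton.elim _ _
    subst h3
    have h4 : fxn (⊤ : Subgroup S) (1 : S) = 1 := by
      unfold fxn
      have h5 : ∀ x : S ⧸ (⊤ : Subgroup S), (1 : S) • x = x := fun x => one_smul _ x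
      rw [Nat.card_congr (Equiv.subtypeUnivEquiv h5)]
      have : Subsingleton (S ⧸ (⊤ : Subgroup S)) := QuotientGroup.subsingleton_quotient_top
      exact Nat.card_of_subsingleton (1 : S)
    rw [h4, map_one, LinearMap.trace_one]
    simp
  rw [h2]
  exact h1

theorem decomp {S k V : Type} [Group S] [Field k] [CharZero k] [AddCommGroup V] [Module k V]
    [FiniteDimensional k V] (r : S →* (V →ₗ[k] V)) (z : S) (A : V →ₗ[k] V) :
    LinearMap.trace k V A =
      LinearMap.trace k V (A * pr r z 1) + LinearMap.trace k V (A * pr r z (-1)) := by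
  rw [← map_add]
  congr 1
  rw [← mul_add]
  have h1 : pr r z (1 : k) + pr r z (-1) = 1 := by
    unfold pr
    rw [← smul_add]
    have h2 : (1 + (1 : k) • r z + (1 + (-1 : k) • r z)) = (2 : k) • (1 : V →ₗ[k] V) := by
      rw [two_smul, one_smul, neg_smul, one_smul]
      abel
    rw [h2, smul_smul, inv_mul_cancel₀ two_ne_zero, one_smul]
  rw [h1, mul_one]

theorem good_thin (hPC : ST_PC) (hRS2 : ST_RS2) (S k : Type) [Group S] [Finite S] [Field k]
    [CharZero k] [IsAlgClosed k] (hS : IsPGroup 2 S) (z : S) (hT : Thin S z)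
    (hQ : ∀ [(Subgroup.zpowers z).Normal], Good (S ⧸ Subgroup.zpowers z) k) : Good S k := by
  intro V _ _ _ B hB r hr hu
  obtain ⟨a, M, hM, ho, hza, hc, -⟩ := id hT
  have hzz : z * z = 1 := by
    rw [hza, ← pow_add, ← two_mul, ← ho]
    exact pow_orderOf_eq_one a
  have hz : z ≠ 1 := by
    rw [hza]
    intro h
    have h1 := orderOf_dvd_of_pow_eq_one h
    rw [ho] at h1
    have := Nat.le_of_dvd hM h1
    omega
  have h1 : Proj B r 1 := Proj.one hu
  have h2 : Proj B r (pr r z 1 * 1) := h1.proj hr z hzz hc 1 (by ring)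
  have h3 : Proj B r (pr r z (-1) * 1) := h1.proj hr z hzz hc (-1) (by ring)
  rw [mul_one] at h2 h3
  have h4 := perm_plus hPC z hz hc hQ V B hB r hr _ h2 (by
    rw [r_mul_pr r z hzz 1 (by ring), one_smul])
  have h5 : PermCh (fun g => LinearMap.trace k V (r g * pr r z (-1))) := by
    obtain ⟨W, B', r', h1, h2, h3', h4, h5⟩ := exists_restrict B hB r hr _ h3
    have h6 := hRS2 S hS z hT k W B' h1 r' h2 (by
      apply LinearMap.ext
      intro x
      apply Subtype.ext
      rw [h3']
      have h7 : (r z * pr r z (-1)) (x : V) = -(pr r z (-1) (x : V)) := by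
        rw [r_mul_pr r z hzz (-1) (by ring), neg_smul, one_smul]
        rfl
      have h8 : r z (pr r z (-1) (x : V)) = -(pr r z (-1) (x : V)) := h7
      rw [h4 _ x.2] at h8
      exact h8) (fun g u hu => by rw [h5, h5]; exact h3.rat g u hu)
    have h7 : (fun g => LinearMap.trace k V (r g * pr r z (-1))) =
        fun g => LinearMap.trace k W (r' g) := by
      funext g
      rw [h5]
    rw [h7]
    exact h6
  have h6 := (hPC S k).2.1 _ _ h4 h5
  have h7 : (fun g => LinearMap.trace k V (r g)) = fun g =>
      LinearMap.trace k V (r g * pr r z 1) + LinearMap.trace k V (r g * pr r z (-1)) := by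
    funext g
    exact decomp r z (r g)
  rw [h7]
  exact h6

theorem good_four (hPC : ST_PC) (S k : Type) [Group S] [Finite S] [Field k]
    [CharZero k] (hT : Four S)
    (hQ : ∀ (x : S), x ≠ 1 → ∀ [(Subgroup.zpowers x).Normal], Good (S ⧸ Subgroup.zpowers x) k)
    (hC : ∀ C : Subgroup S, C ≠ ⊤ → Good C k) : Good S k := by
  intro V _ _ _ B hB r hr hu
  obtain ⟨z, a, hz, ha, haz, hzz, haa, hc, hconj⟩ := hT
  have p1 : Proj B r 1 := Proj.one hu
  have p2 : Proj B r (pr r z 1 * 1) := p1.proj hr z hzz hc 1 (by ring)
  have p3 : Proj B r (pr r z (-1) * 1) := p1.proj hr z hzz hc (-1) (by ring)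
  rw [mul_one] at p2 p3
  have h4 := perm_plus hPC z hz hc (fun {_} => hQ z hz) V B hB r hr _ p2 (by
    rw [r_mul_pr r z hzz 1 (by ring), one_smul])
  have hzE : r z * pr r z (-1) = -pr r z (-1) := by
    rw [r_mul_pr r z hzz (-1) (by ring), neg_smul, one_smul]
  have h5 : PermCh (fun g => LinearMap.trace k V (r g * pr r z (-1))) := by
    by_cases hac : ∀ g, g * a = a * g
    · have p4 := p3.proj hr a haa hac 1 (by ring)
      have p5 := p3.proj hr a haa hac (-1) (by ring)
      have h6 := perm_plus hPC a ha hac (fun {_} => hQ a ha) V B hB r hr _ p4 (by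
        rw [← mul_assoc, r_mul_pr r a haa 1 (by ring), one_smul])
      have haz1 : a * z ≠ 1 := by
        intro h
        apply haz
        rw [eq_inv_of_mul_eq_one_left h]
        exact (eq_inv_of_mul_eq_one_left hzz).symm
      have h7 := perm_plus hPC (a * z) haz1 (fun g => by
          rw [← mul_assoc, hac g, mul_assoc, hc g, mul_assoc])
        (fun {_} => hQ (a * z) haz1) V B hB r hr _ p5 (by
          have h8 : pr r a (-1) * pr r z (-1) = pr r z (-1) * pr r a (-1) :=
            pr_comm r a (-1) _ (p3.comm a)
          calc r (a * z) * (pr r a (-1) * pr r z (-1))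
              = r a * (r z * pr r z (-1)) * pr r a (-1) := by
                rw [h8, map_mul]; simp only [mul_assoc]
            _ = -(r a * (pr r z (-1) * pr r a (-1))) := by
                rw [hzE]
                simp only [mul_neg, neg_mul, mul_assoc]
            _ = -((r a * pr r a (-1)) * pr r z (-1)) := by rw [← h8, mul_assoc]
            _ = _ := by
                rw [r_mul_pr r a haa (-1) (by ring), neg_smul, one_smul, neg_mul, neg_neg])
      have h8 := (hPC S k).2.1 _ _ h6 h7
      have h9 : (fun g => LinearMap.trace k V (r g * pr r z (-1))) = fun g =>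
          LinearMap.trace k V (r g * (pr r a 1 * pr r z (-1))) +
          LinearMap.trace k V (r g * (pr r a (-1) * pr r z (-1))) := by
        funext g
        rw [decomp r a (r g * pr r z (-1))]
        have h10 : ∀ e : k, r g * pr r z (-1) * pr r a e = r g * (pr r a e * pr r z (-1)) := by
          intro e
          rw [pr_comm r a e _ (p3.comm a), mul_assoc]
        rw [h10, h10]
      rw [h9]
      exact h8
    · push_neg at hac
      obtain ⟨s, hs⟩ := hac
      let C : Subgroup S := Subgroup.centralizer {a}
      have memC : ∀ g, g ∈ C ↔ g * a = a * g := by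
        intro g
        rw [Subgroup.mem_centralizer_singleton_iff]
      have hsC : s ∉ C := by
        rw [memC]
        exact hs
      have hCt : C ≠ ⊤ := by
        intro h
        apply hsC
        rw [h]
        exact Subgroup.mem_top _
      have notC : ∀ g, g ∉ C → g * a = a * z * g := by
        intro g hg
        rcases hconj g with h | h
        · exfalso
          apply hg
          rw [memC]
          conv_rhs => rw [← h]
          group
        · conv_rhs => rw [← h]
          group
      have hCC : ∀ g : S, g ∈ C ∨ s⁻¹ * g ∈ C := by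
        intro g
        by_cases hg : g ∈ C
        · exact Or.inl hg
        · right
          rw [memC]
          have h1 := notC g hg
          have h2 := notC s hsC
          -- `g * a * g⁻¹ = s * a * s⁻¹`
          have h3 : g * a * g⁻¹ = s * a * s⁻¹ := by
            rw [h1, h2]
            group
          calc s⁻¹ * g * a = s⁻¹ * (g * a * g⁻¹) * g := by group
            _ = s⁻¹ * (s * a * s⁻¹) * g := by rw [h3]
            _ = a * (s⁻¹ * g) := by group
      have hzC : z ∈ C := by
        rw [memC]
        exact (hc a).symm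
      have haC : a ∈ C := by rw [memC]
      let rC : C →* (V →ₗ[k] V) := r.comp C.subtype
      have hrC : ∀ g x y, B (rC g x) (rC g y) = B x y := fun g x y => hr _ x y
      have q1 : Proj B rC 1 := Proj.one (fun g u hu' => hu (g : S) u hu')
      have q2 := q1.proj hrC ⟨z, hzC⟩ (Subtype.ext hzz) (fun g => Subtype.ext (hc g)) (-1) (by ring)
      have q3 := q2.proj hrC ⟨a, haC⟩ (Subtype.ext haa)
        (fun g => Subtype.ext ((memC g).1 g.2)) 1 (by ring)
      have e1 : pr rC ⟨a, haC⟩ 1 * (pr rC ⟨z, hzC⟩ (-1) * 1) = pr r a 1 * pr r z (-1) := by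
        rw [mul_one]
        rfl
      rw [e1] at q3
      have h6 := perm_of_good (hC C hCt) B hB rC hrC _ q3
      refine (hPC S k).2.2.2.2 C s _ hsC hCC h6 _ ?_ ?_
      · intro g hg
        have h1 := notC g hg
        have h2 : a * (g * a) = g * z := by
          rw [h1, ← mul_assoc, ← mul_assoc, haa, one_mul, hc g]
        have h3 : r a * (r g * r a) = r g * r z := by
          rw [← map_mul, ← map_mul, h2, map_mul]
        have h4 : r a * pr r z (-1) = pr r z (-1) * r a := p3.comm a
        have h5 : LinearMap.trace k V (r g * pr r z (-1)) =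
            -LinearMap.trace k V (r g * pr r z (-1)) := by
          calc LinearMap.trace k V (r g * pr r z (-1))
              = LinearMap.trace k V (r a * (r a * (r g * pr r z (-1)))) := by
                rw [← mul_assoc (r a), r_sq r a haa, one_mul]
            _ = LinearMap.trace k V (r a * (r g * pr r z (-1)) * r a) :=
                LinearMap.trace_mul_comm k _ _
            _ = LinearMap.trace k V (r a * (r g * r a) * pr r z (-1)) := by
                congr 1
                rw [mul_assoc, mul_assoc (r g), ← h4]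
                simp only [mul_assoc]
            _ = LinearMap.trace k V (r g * (r z * pr r z (-1))) := by
                rw [h3, mul_assoc]
            _ = _ := by rw [hzE, mul_neg, map_neg]
        have h6 : (2 : k) * LinearMap.trace k V (r g * pr r z (-1)) = 0 := by
          linear_combination h5
        rcases mul_eq_zero.1 h6 with h7 | h7
        · exact absurd h7 two_ne_zero
        · exact h7
      · intro g g' hgg
        have e2 : r s * (pr r a 1 * pr r z (-1)) * r s⁻¹ = pr r a (-1) * pr r z (-1) := by
          have h1 : r s * pr r a 1 * r s⁻¹ = (2 : k)⁻¹ • (1 + r a * r z) := by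
            unfold pr
            rw [one_smul, mul_smul_comm, smul_mul_assoc, mul_add, add_mul, mul_one, ← map_mul,
              mul_inv_cancel, map_one, ← map_mul, ← map_mul, ← map_mul]
            have h2 : s * a * s⁻¹ = a * z := by
              rw [notC s hsC, mul_inv_cancel_right]
            rw [h2]
          calc r s * (pr r a 1 * pr r z (-1)) * r s⁻¹
              = r s * pr r a 1 * (pr r z (-1) * r s⁻¹) := by simp only [mul_assoc]
            _ = r s * pr r a 1 * r s⁻¹ * pr r z (-1) := by
                rw [← p3.comm s⁻¹]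
                simp only [mul_assoc]
            _ = (2 : k)⁻¹ • (pr r z (-1) + r a * (r z * pr r z (-1))) := by
                rw [h1, smul_mul_assoc, add_mul, one_mul, mul_assoc]
            _ = (2 : k)⁻¹ • (pr r z (-1) - r a * pr r z (-1)) := by
                rw [hzE, mul_neg, sub_eq_add_neg]
            _ = _ := by
                conv_rhs => rw [show pr r a (-1) = (2 : k)⁻¹ • (1 + (-1 : k) • r a) from rfl]
                rw [smul_mul_assoc, add_mul, one_mul, neg_smul, one_smul, neg_mul, sub_eq_add_neg]
        show LinearMap.trace k V (r (g : S) * pr r z (-1)) =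
          LinearMap.trace k V (r (g : S) * (pr r a 1 * pr r z (-1))) +
          LinearMap.trace k V (r (g' : S) * (pr r a 1 * pr r z (-1)))
        rw [decomp r a (r (g : S) * pr r z (-1))]
        have h10 : ∀ e : k, r (g : S) * pr r z (-1) * pr r a e =
            r (g : S) * (pr r a e * pr r z (-1)) := by
          intro e
          rw [pr_comm r a e _ (p3.comm a), mul_assoc]
        rw [h10, h10, ← e2]
        congr 1
        calc LinearMap.trace k V (r (g : S) * (r s * (pr r a 1 * pr r z (-1)) * r s⁻¹))
            = LinearMap.trace k V ((r (g : S) * r s * (pr r a 1 * pr r z (-1))) * r s⁻¹) := by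
              simp only [mul_assoc]
          _ = LinearMap.trace k V (r s⁻¹ * (r (g : S) * r s * (pr r a 1 * pr r z (-1)))) :=
              LinearMap.trace_mul_comm k _ _
          _ = _ := by
              have h11 : r (g' : S) = r s⁻¹ * (r (g : S) * r s) := by
                rw [hgg, ← map_mul, ← map_mul]
                congr 1
                rw [mul_assoc]
              rw [h11]
              simp only [mul_assoc]
  have h6 := (hPC S k).2.1 _ _ h4 h5
  have h7 : (fun g => LinearMap.trace k V (r g)) = fun g =>
      LinearMap.trace k V (r g * pr r z 1) + LinearMap.trace k V (r g * pr r z (-1)) := by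
    funext g
    exact decomp r z (r g)
  rw [h7]
  exact h6

theorem st_RS (hPC : ST_PC) (hRS1 : ST_RS1) (hRS2 : ST_RS2) : ST_RS := by
  have main : ∀ (n : ℕ) (S k : Type) [Group S] [Finite S] [Field k] [CharZero k] [IsAlgClosed k],
      IsPGroup 2 S → Nat.card S = n → Good S k := by
    intro n
    induction n using Nat.strong_induction_on with
    | _ n ih =>
      intro S k _ _ _ _ _ hS hn
      have hQ : ∀ (x : S), x ≠ 1 → ∀ [(Subgroup.zpowers x).Normal],
          Good (S ⧸ Subgroup.zpowers x) k := by
        intro x hx _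
        refine ih _ ?_ (S ⧸ Subgroup.zpowers x) k (hS.to_quotient _) rfl
        rw [← hn]
        exact card_quot_lt x hx
      have hC : ∀ C : Subgroup S, C ≠ ⊤ → Good C k := by
        intro C hC
        refine ih _ ?_ C k (hS.to_subgroup _) rfl
        rw [← hn]
        have h1 := C.card_eq_card_quotient_mul_card_subgroup
        have h2 : 1 < Nat.card (S ⧸ C) := by
          have h3 : Nat.card (S ⧸ C) = C.index := rfl
          have h4 : C.index ≠ 1 := by
            intro h
            exact hC (Subgroup.index_eq_one.1 h)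
          have h5 : 0 < Nat.card (S ⧸ C) := Nat.card_pos
          omega
        have h3 : 0 < Nat.card C := Nat.card_pos
        rw [h1]
        nlinarith
      by_cases h0 : Nontrivial S
      · by_cases h1 : Four S
        · exact good_four hPC S k h1 hQ hC
        · obtain ⟨z, hz⟩ := hRS1 S hS h0 h1
          have hz1 : z ≠ 1 := by
            obtain ⟨a, M, hM, ho, hza, hc, -⟩ := hz
            rw [hza]
            intro h
            have h1 := orderOf_dvd_of_pow_eq_one h
            rw [ho] at h1
            have := Nat.le_of_dvd hM h1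
            omega
          exact good_thin hPC hRS2 S k hS z hz (fun {_} => hQ z hz1)
      · exact good_trivial hPC S k h0
  intro S _ _ hS k V _ _ _ _ _ _ B hB r hr hu
  exact main _ S k hS rfl V B hB r hr hu

end PQ22
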